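import Pool.Agent.Helper68.EP.St5

set_option autoImplicit false

open MeasureTheory Set Filter Topology
open scoped ENNReal RealInnerProductSpace

namespace Pool.Agent.Helper30.EP

open Pool.Agent.Helper68.LM (Pl)
open Pool.Agent.Helper68.EP Pool.Agent.Helper20.RG
open Pool.Agent.Helper20.RL (RQ Rich BM Fml)

/-- arithmetic of the exponents -/
theorem xga_num {u q : ℕ} (hq : 5 ≤ q) (hu : 64 * u ≤ 2 ^ q) :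
    2 ^ (q - 3) + u + 1 ≤ 2 ^ q := by
  obtain ⟨r, rfl⟩ := Nat.exists_eq_add_of_le hq
  have h1 : 2 ^ (5 + r) = 8 * 2 ^ (5 + r - 3) := by
    have : 5 + r = (5 + r - 3) + 3 := by omega
    rw [this, pow_add]
    simp
    ring
  have h2 : 4 ≤ 2 ^ (5 + r - 3) := by
    have h3 : 2 ≤ 5 + r - 3 := by omega
    calc 4 = 2 ^ 2 := by norm_num
      _ ≤ 2 ^ (5 + r - 3) := Nat.pow_le_pow_right (by norm_num) h3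
  omega

/-- consequences of a good hit -/
theorem xga_good {P : Par} {Δ : Dat} {ct : ℕ → ℕ → Pl} {U₁ u₂ j₂ q₂ u₁ j₁ : ℕ} {k : ℤ} {θ : ℝ}
    {E : ℕ → Set Pl} {x y₂ : Pl} (hEVF : StEVF) (hBM : ∀ u, BM (E u)) (hθ : 0 < θ)
    (hu12 : u₁ ≤ u₂) (hu2 : u₂ ≤ U₁)
    (hj2 : j₂ < 2 ^ u₂) (hq0 : q0 P u₂ ≤ q₂) (hq1 : q₂ < q1 P u₂)
    (hy2 : y₂ ∈ Lc P Δ u₂ j₂ k θ (E u₂) q₂) (hN2 : Nr P Δ ct u₂ j₂ k θ (E u₂) x y₂)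
    (hx : x ∈ Xv P Δ ct u₁ j₁ k θ (E u₁) (Vc P Δ u₁ j₁ k θ (E u₁)))
    (hb : x ∉ Bx P Δ ct U₁ u₁ j₁ k θ E) :
    2 ^ q₂ < Δ.fl u₁ j₁ ∧
      |Δ.sl u₁ j₁ - Δ.sl u₂ j₂| ≤ (2 : ℝ) ^ ((u₂ : ℤ) - 2 ^ q₂) := by
  obtain ⟨y₁, hy1, hN1⟩ := hx
  have hW := ((hEVF P Δ u₁ j₁ k θ (E u₁) (hBM u₁) hθ).1 y₁ hy1).1
  have hnot : ¬ (k - 2 ^ q₂ ≤ Bc P Δ u₁ j₁ k θ (E u₁) y₁ ∨
      (2 : ℝ) ^ (k - 2 ^ q₂) ≤ |Δ.sl u₁ j₁ - Δ.sl u₂ j₂| * (2 : ℝ) ^ (k - (u₂ : ℤ))) := by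
    intro hor
    exact hb ⟨y₁, hy1, hN1, u₂, hu12, hu2, j₂, hj2, q₂, hq0, hq1, y₂, hy2, hN2, hor⟩
  push Not at hnot
  obtain ⟨h1, h2⟩ := hnot
  have hW1 : k - (Δ.fl u₁ j₁ : ℤ) ≤ Bc P Δ u₁ j₁ k θ (E u₁) y₁ := hW.1
  constructor
  · have h3 : (2 : ℤ) ^ q₂ < (Δ.fl u₁ j₁ : ℤ) := by linarith
    exact_mod_cast h3
  · have hpos : (0 : ℝ) < (2 : ℝ) ^ (k - (u₂ : ℤ)) := zpow_pos (by norm_num) _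
    have h4 : (2 : ℝ) ^ (k - 2 ^ q₂) = (2 : ℝ) ^ ((u₂ : ℤ) - 2 ^ q₂) * (2 : ℝ) ^ (k - (u₂ : ℤ)) := by
      rw [← zpow_add₀ (by norm_num : (2 : ℝ) ≠ 0)]
      congr 1
      ring
    rw [h4] at h2
    exact le_of_lt (lt_of_mul_lt_mul_right h2 hpos.le)

theorem hXGA (hEVF : StEVF) : StXGA := by
  intro P Δ ct U₁ u₂ j₂ q₂ k θ E x y₂ hSy hOk hBM hu2 hj2 hq0 hq1 hy2 hN2
  have hθ : 0 < θ := hOk.th.1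
  have hq5 : 5 ≤ q₂ := le_trans hOk.qq.1 hq0
  have h64 : 64 * u₂ ≤ 2 ^ q₂ :=
    le_trans hOk.uq (Nat.pow_le_pow_right (by norm_num) hq0)
  have hnum := xga_num hq5 h64
  have hi0 : 0 < 2 ^ (q₂ - 3) := by positivity
  have hanti : ∀ (s : ℝ), Antitone (Δ.ell s) := fun s => antitone_nat_of_succ_le (hSy.mono s)
  -- the exponent `m = 2^q₂ - u₂`
  obtain ⟨m, hm⟩ : ∃ m : ℕ, 2 ^ q₂ = m + 1 + u₂ := ⟨2 ^ q₂ - u₂ - 1, by omega⟩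
  have hNm : 2 ^ (q₂ - 3) ≤ m := by omega
  have hexp : ((u₂ : ℤ) - 2 ^ q₂) = -((m : ℤ) + 1) := by
    have : (2 : ℤ) ^ q₂ = (m : ℤ) + 1 + u₂ := by exact_mod_cast hm
    rw [this]; ring
  refine ⟨?_, ?_⟩
  · intro u₁ j₁ hu1 hu12 hj1 hx hb
    obtain ⟨hfl, hs⟩ := xga_good hEVF hBM hθ hu12.le hu2 hj2 hq0 hq1 hy2 hN2 hx hb
    have hact := hSy.act u₁ j₁ (2 ^ q₂ - u₁) hu1 hj1 (by omega)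
    have h1 : Δ.ell (Δ.sl u₁ j₁) (2 ^ q₂ - u₁) ≤ Δ.ell (Δ.sl u₁ j₁) (m + 1) :=
      hanti _ (by omega)
    rw [hexp] at hs
    have h2 : Δ.ell (Δ.sl u₁ j₁) (m + 1) ≤ Δ.ell (Δ.sl u₂ j₂) m := hSy.shift _ _ m hs
    have h3 : Δ.ell (Δ.sl u₂ j₂) m ≤ Δ.ell (Δ.sl u₂ j₂) (2 ^ (q₂ - 3)) := hanti _ hNm
    have h4 : Δ.ell (Δ.sl u₁ j₁) (2 ^ q₂ - u₁) ≤ Δ.ell (Δ.sl u₂ j₂) (2 ^ (q₂ - 3)) :=
      h1.trans (h2.trans h3)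
    have hp1 : (0 : ℝ) < 2 ^ u₁ := by positivity
    have h5 : ((2 : ℝ) ^ u₁)⁻¹ ≤ Δ.ell (Δ.sl u₂ j₂) (2 ^ (q₂ - 3)) := by
      refine le_trans ?_ h4
      rw [inv_le_iff_one_le_mul₀ hp1]
      linarith [hact, mul_comm ((2 : ℝ) ^ u₁) (Δ.ell (Δ.sl u₁ j₁) (2 ^ q₂ - u₁))]
    calc (2 : ℝ) ^ ((u₂ : ℤ) - u₁) = (2 : ℝ) ^ u₂ * ((2 : ℝ) ^ u₁)⁻¹ := by
          rw [zpow_sub₀ (by norm_num : (2 : ℝ) ≠ 0), zpow_natCast, zpow_natCast, div_eq_mul_inv]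
      _ ≤ (2 : ℝ) ^ u₂ * Δ.ell (Δ.sl u₂ j₂) (2 ^ (q₂ - 3)) :=
          mul_le_mul_of_nonneg_left h5 (by positivity)
  · intro J hJ
    have hsep := hSy.sep u₂ (Δ.sl u₂ j₂) (m + 1) hOk.u1
    have hfin : ({j : ℕ | j < 2 ^ u₂ ∧ |Δ.sl u₂ j - Δ.sl u₂ j₂| ≤ (2 : ℝ) ^ (-((m + 1 : ℕ) : ℤ))}).Finite :=
      (Set.finite_lt_nat (2 ^ u₂)).subset (fun j hj => hj.1)
    have hsub : (J : Set ℕ) ⊆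
        {j : ℕ | j < 2 ^ u₂ ∧ |Δ.sl u₂ j - Δ.sl u₂ j₂| ≤ (2 : ℝ) ^ (-((m + 1 : ℕ) : ℤ))} := by
      intro j hj
      obtain ⟨hj1, hx, hb⟩ := hJ j (by simpa using hj)
      obtain ⟨_, hs⟩ := xga_good hEVF hBM hθ le_rfl hu2 hj2 hq0 hq1 hy2 hN2 hx hb
      rw [hexp] at hs
      refine ⟨hj1, ?_⟩
      push_cast
      exact hs
    have h1 : (J.card : ℝ) ≤
        ({j : ℕ | j < 2 ^ u₂ ∧ |Δ.sl u₂ j - Δ.sl u₂ j₂| ≤ (2 : ℝ) ^ (-((m + 1 : ℕ) : ℤ))}.ncard : ℝ) := by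
      have := Set.ncard_le_ncard hsub hfin
      rw [Set.ncard_coe_finset] at this
      exact_mod_cast this
    have h2 : Δ.ell (Δ.sl u₂ j₂) (m + 1) ≤ Δ.ell (Δ.sl u₂ j₂) (2 ^ (q₂ - 3)) :=
      hanti _ (by omega)
    have h3 : (2 : ℝ) ^ u₂ * Δ.ell (Δ.sl u₂ j₂) (m + 1) ≤
        (2 : ℝ) ^ u₂ * Δ.ell (Δ.sl u₂ j₂) (2 ^ (q₂ - 3)) :=
      mul_le_mul_of_nonneg_left h2 (by positivity)
    linarith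

end Pool.Agent.Helper30.EP
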